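import Pool.Agent.Lib.MP_5349a4_pr.M.Iface4

/-!
# Module BADM (helper59): measurability of the numbers of bad and long edges
-/

set_option autoImplicit false
open MeasureTheory Set ProbabilityTheory
open scoped ENNReal NNReal

namespace Pool.Agent.Lib.MP_5349a4_pr.H59

section
variable {d : ℕ} {Ω : Type} [MeasurableSpace Ω] (X : ℕ → Ω → Eu d) (B : ℕ → Set Ω)

/-- the point number `m` is reached from the point number `n` in `k` steps shorter than `r` -/
def reach (r : Ω → ℝ) (n : ℕ) : ℕ → ℕ → Set Ω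
  | 0, m => {ω | X n ω = X m ω}
  | k + 1, m => ⋃ l, reach r n k l ∩ {ω | dist (X l ω) (X m ω) < r ω} ∩ B m

variable {X B}

lemma measurableSet_reach (hX : ∀ n, Measurable (X n)) (hB : ∀ n, MeasurableSet (B n))
    {r : Ω → ℝ} (hr : Measurable r) (n k m : ℕ) : MeasurableSet (reach X B r n k m) := by
  induction k generalizing m with
  | zero => exact measurableSet_eq_fun (hX n) (hX m)
  | succ k ih =>
    refine MeasurableSet.iUnion fun l => ?_
    refine ((ih l).inter ?_).inter (hB m)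
    exact measurableSet_lt ((hX l).dist (hX m)) hr

lemma mem_och {S : Ω → Set (Eu d)} (hS : ∀ ω, S ω = {x | ∃ n, ω ∈ B n ∧ X n ω = x})
    (r : Ω → ℝ) (n : ℕ) (ω : Ω) (hn : ω ∈ B n) (p : Eu d) :
    p ∈ och (S ω) (r ω) (X n ω) ↔
      ∃ k m, ω ∈ B m ∧ X m ω = p ∧ ω ∈ reach X B r n k m := by
  constructor
  · intro h
    have h' : Relation.ReflTransGen (fun a b => dist a b < r ω ∧ b ∈ S ω) (X n ω) p := h
    clear h
    induction h' with
    | refl => exact ⟨0, n, hn, rfl, rfl⟩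
    | tail _ h2 ih =>
      obtain ⟨k, m, hm, rfl, hr⟩ := ih
      obtain ⟨h3, h4⟩ := h2
      rw [hS] at h4
      obtain ⟨m', hm', rfl⟩ := h4
      exact ⟨k + 1, m', hm', rfl, mem_iUnion.2 ⟨m, ⟨hr, h3⟩, hm'⟩⟩
  · rintro ⟨k, m, hm, rfl, hr⟩
    have key : ∀ k m, ω ∈ reach X B r n k m → X m ω ∈ och (S ω) (r ω) (X n ω) := by
      intro k
      induction k with
      | zero =>
        intro m h
        have h' : X n ω = X m ω := h
        rw [← h']
        exact Relation.ReflTransGen.refl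
      | succ k ih =>
        intro m h
        obtain ⟨l, ⟨h1, h2⟩, h3⟩ := mem_iUnion.1 h
        refine Relation.ReflTransGen.tail (ih l h1) ⟨h2, ?_⟩
        rw [hS]
        exact ⟨m, h3, rfl⟩
    exact key k m hr

lemma measurableSet_mem_och {S : Ω → Set (Eu d)}
    (hS : ∀ ω, S ω = {x | ∃ n, ω ∈ B n ∧ X n ω = x}) (hX : ∀ n, Measurable (X n))
    (hB : ∀ n, MeasurableSet (B n)) {r : Ω → ℝ} (hr : Measurable r) (n m : ℕ) :
    MeasurableSet {ω | ω ∈ B n ∧ X m ω ∈ och (S ω) (r ω) (X n ω)} := by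
  have h : {ω | ω ∈ B n ∧ X m ω ∈ och (S ω) (r ω) (X n ω)} =
      B n ∩ ⋃ k, ⋃ m', B m' ∩ {ω | X m' ω = X m ω} ∩ reach X B r n k m' := by
    ext ω
    simp only [mem_setOf_eq, mem_inter_iff, mem_iUnion]
    constructor
    · rintro ⟨h1, h2⟩
      obtain ⟨k, m', h3, h4, h5⟩ := (mem_och hS r n ω h1 _).1 h2
      exact ⟨h1, k, m', ⟨h3, h4⟩, h5⟩
    · rintro ⟨h1, k, m', ⟨h3, h4⟩, h5⟩
      exact ⟨h1, (mem_och hS r n ω h1 _).2 ⟨k, m', h3, h4, h5⟩⟩
  rw [h]
  refine (hB n).inter (MeasurableSet.iUnion fun k => MeasurableSet.iUnion fun m' => ?_)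
  exact ((hB m').inter (measurableSet_eq_fun (hX m') (hX m))).inter
    (measurableSet_reach hX hB hr n k m')

lemma och_subset (S : Set (Eu d)) (r : ℝ) (x : Eu d) : och S r x ⊆ insert x S := by
  intro p hp
  have hp' : Relation.ReflTransGen (fun a b => dist a b < r ∧ b ∈ S) x p := hp
  rcases Relation.ReflTransGen.cases_tail hp' with h | ⟨c, _, h⟩
  · exact Or.inl h
  · exact Or.inr h.2

lemma infinite_iff {S : Set (Eu d)} (hS : LF S) (r : ℝ) (x : Eu d) :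
    (och S r x).Infinite ↔ ∀ N : ℕ, ∃ p ∈ och S r x, (N : ℝ) < ‖p‖ := by
  constructor
  · intro h N
    by_contra hcon
    push Not at hcon
    apply h
    have h1 : (S ∩ Metric.closedBall (0 : Eu d) N).Finite := hS _ Metric.isBounded_closedBall
    refine (h1.insert x).subset fun p hp => ?_
    rcases och_subset S r x hp with h2 | h2
    · exact Or.inl h2
    · right
      refine ⟨h2, ?_⟩
      rw [mem_closedBall_zero_iff]
      exact hcon p hp
  · intro h hfin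
    obtain ⟨C, hC⟩ := (hfin.isBounded).exists_norm_le
    obtain ⟨N, hN⟩ := exists_nat_ge C
    obtain ⟨p, hp, hp2⟩ := h N
    have := hC p hp
    linarith

lemma measurableSet_infinite {S : Ω → Set (Eu d)}
    (hS : ∀ ω, S ω = {x | ∃ n, ω ∈ B n ∧ X n ω = x}) (hX : ∀ n, Measurable (X n))
    (hB : ∀ n, MeasurableSet (B n)) (hLF : ∀ ω, LF (S ω)) {r : Ω → ℝ} (hr : Measurable r)
    (n : ℕ) :
    MeasurableSet {ω | ω ∈ B n ∧ (och (S ω) (r ω) (X n ω)).Infinite} := by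
  have h : {ω | ω ∈ B n ∧ (och (S ω) (r ω) (X n ω)).Infinite} =
      B n ∩ ⋂ N : ℕ, ⋃ k, ⋃ m', B m' ∩ {ω | (N : ℝ) < ‖X m' ω‖} ∩ reach X B r n k m' := by
    ext ω
    simp only [mem_setOf_eq, mem_inter_iff, mem_iUnion, mem_iInter]
    constructor
    · rintro ⟨h1, h2⟩
      refine ⟨h1, fun N => ?_⟩
      obtain ⟨p, hp, hp2⟩ := (infinite_iff (hLF ω) _ _).1 h2 N
      obtain ⟨k, m', h3, h4, h5⟩ := (mem_och hS r n ω h1 _).1 hp
      exact ⟨k, m', ⟨h3, by rw [h4]; exact hp2⟩, h5⟩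
    · rintro ⟨h1, h2⟩
      refine ⟨h1, (infinite_iff (hLF ω) _ _).2 fun N => ?_⟩
      obtain ⟨k, m', ⟨h3, h4⟩, h5⟩ := h2 N
      exact ⟨X m' ω, (mem_och hS r n ω h1 _).2 ⟨k, m', h3, rfl, h5⟩, h4⟩
  rw [h]
  refine (hB n).inter (MeasurableSet.iInter fun N => MeasurableSet.iUnion fun k =>
    MeasurableSet.iUnion fun m' => ?_)
  exact ((hB m').inter (measurableSet_lt measurable_const (hX m').norm)).inter
    (measurableSet_reach hX hB hr n k m')

variable (X B) in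
/-- the index `n` gives a new point -/
def fresh (n : ℕ) : Set Ω := B n ∩ ⋂ m : ℕ, ⋂ _ : m < n, (B m ∩ {ω | X m ω = X n ω})ᶜ

lemma measurableSet_fresh (hX : ∀ n, Measurable (X n)) (hB : ∀ n, MeasurableSet (B n)) (n : ℕ) :
    MeasurableSet (fresh X B n) := by
  refine (hB n).inter (MeasurableSet.iInter fun m => MeasurableSet.iInter fun _ => ?_)
  exact ((hB m).inter (measurableSet_eq_fun (hX m) (hX n))).compl

lemma mem_fresh {n : ℕ} {ω : Ω} : ω ∈ fresh X B n ↔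
    ω ∈ B n ∧ ∀ m < n, ω ∈ B m → X m ω ≠ X n ω := by
  simp only [fresh, mem_inter_iff, mem_iInter, mem_compl_iff, mem_setOf_eq, not_and]

/-- sums over the points of the process as sums over the indices -/
lemma tsum_points {S : Ω → Set (Eu d)} (hS : ∀ ω, S ω = {x | ∃ n, ω ∈ B n ∧ X n ω = x})
    (ω : Ω) (V : Set (Eu d)) (g : Eu d → ℝ≥0∞) :
    ∑' x : (S ω ∩ V : Set (Eu d)), g x =
      ∑' n : ℕ, {n | ω ∈ fresh X B n ∧ X n ω ∈ V}.indicator (fun n => g (X n ω)) n := by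
  have h1 : (S ω ∩ V : Set (Eu d)) = (fun n => X n ω) '' {n | ω ∈ fresh X B n ∧ X n ω ∈ V} := by
    ext x
    constructor
    · rintro ⟨h1, h2⟩
      rw [hS] at h1
      classical
      have h3 : ∃ n, ω ∈ B n ∧ X n ω = x := h1
      refine ⟨Nat.find h3, ⟨?_, ?_⟩, (Nat.find_spec h3).2⟩
      · rw [mem_fresh]
        refine ⟨(Nat.find_spec h3).1, fun m hm hmB heq => Nat.find_min h3 hm ⟨hmB, ?_⟩⟩
        rw [heq, (Nat.find_spec h3).2]
      · show X (Nat.find h3) ω ∈ V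
        rw [(Nat.find_spec h3).2]
        exact h2
    · rintro ⟨n, ⟨h1, h2⟩, rfl⟩
      refine ⟨?_, h2⟩
      rw [hS]
      exact ⟨n, (mem_fresh.1 h1).1, rfl⟩
  have h2 : Set.InjOn (fun n => X n ω) {n | ω ∈ fresh X B n ∧ X n ω ∈ V} := by
    rintro a ⟨ha, _⟩ b ⟨hb, _⟩ hab
    have ha' := mem_fresh.1 ha
    have hb' := mem_fresh.1 hb
    rcases lt_trichotomy a b with h | h | h
    · exact absurd hab (hb'.2 a h ha'.1)
    · exact h
    · exact absurd hab.symm (ha'.2 b h hb'.1)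
  rw [h1, tsum_image (f := g) h2]
  exact tsum_subtype {n | ω ∈ fresh X B n ∧ X n ω ∈ V} (fun n => g (X n ω))

/-- double sums over pairs of points -/
lemma measurable_pairs {S : Ω → Set (Eu d)}
    (hS : ∀ ω, S ω = {x | ∃ n, ω ∈ B n ∧ X n ω = x}) (hX : ∀ n, Measurable (X n))
    (hB : ∀ n, MeasurableSet (B n)) {V : Set (Eu d)} (hV : MeasurableSet V)
    (p : Ω → Eu d → Eu d → Prop)
    (hp : ∀ n m, MeasurableSet {ω | (ω ∈ B n ∧ ω ∈ B m) ∧ p ω (X n ω) (X m ω)}) :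
    Measurable fun ω => ∑' x : (S ω ∩ V : Set (Eu d)), ∑' y : S ω, ind (p ω x y) := by
  have h1 : (fun ω => ∑' x : (S ω ∩ V : Set (Eu d)), ∑' y : S ω, ind (p ω x y)) =
      fun ω => ∑' n : ℕ, ∑' m : ℕ,
        ((fresh X B n ∩ (X n) ⁻¹' V) ∩ fresh X B m ∩
          {ω | (ω ∈ B n ∧ ω ∈ B m) ∧ p ω (X n ω) (X m ω)}).indicator (fun _ => (1 : ℝ≥0∞)) ω := by
    funext ω
    rw [tsum_points hS ω V (fun x => ∑' y : S ω, ind (p ω x y))]
    refine tsum_congr fun n => ?_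
    by_cases hn : n ∈ {n | ω ∈ fresh X B n ∧ X n ω ∈ V}
    · rw [indicator_of_mem hn]
      have h2 := tsum_points hS ω univ (fun y => ind (p ω (X n ω) y))
      rw [inter_univ] at h2
      rw [h2]
      refine tsum_congr fun m => ?_
      by_cases hm : m ∈ {n | ω ∈ fresh X B n ∧ X n ω ∈ univ}
      · rw [indicator_of_mem hm]
        by_cases hq : p ω (X n ω) (X m ω)
        · rw [indicator_of_mem]
          · simp [ind, hq]
          · exact ⟨⟨⟨hn.1, hn.2⟩, hm.1⟩, ⟨(mem_fresh.1 hn.1).1, (mem_fresh.1 hm.1).1⟩, hq⟩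
        · rw [indicator_of_notMem]
          · simp [ind, hq]
          · rintro ⟨_, _, h3⟩
            exact hq h3
      · rw [indicator_of_notMem hm, indicator_of_notMem]
        rintro ⟨⟨_, h3⟩, _⟩
        exact hm ⟨h3, mem_univ _⟩
    · rw [indicator_of_notMem hn]
      symm
      rw [ENNReal.tsum_eq_zero]
      intro m
      rw [indicator_of_notMem]
      rintro ⟨⟨h3, _⟩, _⟩
      exact hn ⟨h3.1, h3.2⟩
  rw [h1]
  refine Measurable.ennreal_tsum fun n => Measurable.ennreal_tsum fun m => ?_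
  refine measurable_const.indicator ?_
  exact (((measurableSet_fresh hX hB n).inter (hX n hV)).inter
    (measurableSet_fresh hX hB m)).inter (hp n m)

lemma measurableSet_edge {S : Ω → Set (Eu d)}
    (hS : ∀ ω, S ω = {x | ∃ n, ω ∈ B n ∧ X n ω = x}) (hX : ∀ n, Measurable (X n))
    (hB : ∀ n, MeasurableSet (B n)) (n m : ℕ) :
    MeasurableSet {ω | (ω ∈ B n ∧ ω ∈ B m) ∧ edge (S ω) (X n ω) (X m ω)} := by
  have hr : Measurable fun ω => dist (X n ω) (X m ω) := (hX n).dist (hX m)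
  have h : {ω | (ω ∈ B n ∧ ω ∈ B m) ∧ edge (S ω) (X n ω) (X m ω)} =
      ((B n ∩ B m) ∩ {ω | X n ω = X m ω}ᶜ) \
        {ω | ω ∈ B n ∧ X m ω ∈ och (S ω) (dist (X n ω) (X m ω)) (X n ω)} := by
    ext ω
    simp only [mem_setOf_eq, mem_diff, mem_inter_iff, mem_compl_iff, edge, not_and]
    constructor
    · rintro ⟨⟨h1, h2⟩, _, _, h3, h4⟩
      exact ⟨⟨⟨h1, h2⟩, h3⟩, fun _ => h4⟩
    · rintro ⟨⟨⟨h1, h2⟩, h3⟩, h4⟩
      refine ⟨⟨h1, h2⟩, ?_, ?_, h3, h4 h1⟩
      · rw [hS]; exact ⟨n, h1, rfl⟩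
      · rw [hS]; exact ⟨m, h2, rfl⟩
  rw [h]
  exact (((hB n).inter (hB m)).inter (measurableSet_eq_fun (hX n) (hX m)).compl).diff
    (measurableSet_mem_och hS hX hB hr n m)

lemma measurableSet_bad {S : Ω → Set (Eu d)}
    (hS : ∀ ω, S ω = {x | ∃ n, ω ∈ B n ∧ X n ω = x}) (hX : ∀ n, Measurable (X n))
    (hB : ∀ n, MeasurableSet (B n)) (hLF : ∀ ω, LF (S ω)) (n m : ℕ) :
    MeasurableSet {ω | (ω ∈ B n ∧ ω ∈ B m) ∧ bad (S ω) (X n ω) (X m ω)} := by
  have hr : Measurable fun ω => dist (X n ω) (X m ω) := (hX n).dist (hX m)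
  have h : {ω | (ω ∈ B n ∧ ω ∈ B m) ∧ bad (S ω) (X n ω) (X m ω)} =
      {ω | (ω ∈ B n ∧ ω ∈ B m) ∧ edge (S ω) (X n ω) (X m ω)} ∩
      {ω | ω ∈ B n ∧ (och (S ω) (dist (X n ω) (X m ω)) (X n ω)).Infinite} ∩
      {ω | ω ∈ B m ∧ (och (S ω) (dist (X n ω) (X m ω)) (X m ω)).Infinite} := by
    ext ω
    simp only [mem_setOf_eq, mem_inter_iff, bad]
    constructor
    · rintro ⟨⟨h1, h2⟩, h3, h4, h5⟩
      exact ⟨⟨⟨⟨h1, h2⟩, h3⟩, h1, h4⟩, h2, h5⟩
    · rintro ⟨⟨⟨⟨h1, h2⟩, h3⟩, _, h4⟩, _, h5⟩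
      exact ⟨⟨h1, h2⟩, h3, h4, h5⟩
  rw [h]
  exact ((measurableSet_edge hS hX hB n m).inter
    (measurableSet_infinite hS hX hB hLF hr n)).inter (measurableSet_infinite hS hX hB hLF hr m)

end

/-- BADM -/
theorem badm : BadMStatement := by
  intro d Ω _ Pr S hd hP J V hV
  obtain ⟨X, B, hX, hB, hS⟩ := hP.enum
  constructor
  · refine measurable_pairs hS hX hB hV (fun ω x y => bad (S ω) x y ∧ dist x y ≤ J) fun n m => ?_
    have h : {ω | (ω ∈ B n ∧ ω ∈ B m) ∧ bad (S ω) (X n ω) (X m ω) ∧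
        dist (X n ω) (X m ω) ≤ J} =
        {ω | (ω ∈ B n ∧ ω ∈ B m) ∧ bad (S ω) (X n ω) (X m ω)} ∩
          {ω | dist (X n ω) (X m ω) ≤ J} := by
      ext ω
      simp only [mem_setOf_eq, mem_inter_iff]
      tauto
    rw [h]
    exact (measurableSet_bad hS hX hB hP.lf n m).inter
      (measurableSet_le ((hX n).dist (hX m)) measurable_const)
  · refine measurable_pairs hS hX hB hV (fun ω x y => edge (S ω) x y ∧ J < dist x y) fun n m => ?_
    have h : {ω | (ω ∈ B n ∧ ω ∈ B m) ∧ edge (S ω) (X n ω) (X m ω) ∧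
        J < dist (X n ω) (X m ω)} =
        {ω | (ω ∈ B n ∧ ω ∈ B m) ∧ edge (S ω) (X n ω) (X m ω)} ∩
          {ω | J < dist (X n ω) (X m ω)} := by
      ext ω
      simp only [mem_setOf_eq, mem_inter_iff]
      tauto
    rw [h]
    exact (measurableSet_edge hS hX hB n m).inter
      (measurableSet_lt measurable_const ((hX n).dist (hX m)))

end Pool.Agent.Lib.MP_5349a4_pr.H59
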