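import Pool.Agent.Lib.MP_5349a4_pr.M.H38.Tuple
import Pool.Agent.Lib.MP_5349a4_pr.M.Iface3

/-!
# Module GENF (helper59): general position
-/

set_option autoImplicit false
open MeasureTheory Set ProbabilityTheory
open scoped ENNReal NNReal

namespace Pool.Agent.Lib.MP_5349a4_pr.H59

section
variable {E : Type} [MeasurableSpace E]

/-- almost sure statements under the Poisson law, by tuples -/
theorem ae_PL {ρ : Measure E} {P : Cfg E → Prop}
    (h : ∀ k, ∀ᵐ u ∂(Measure.pi fun _ : Fin k => ρ), P ⟨k, u⟩) : ∀ᵐ ω ∂PL ρ, P ω := by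
  unfold PL
  rw [Measure.ae_sum_iff]
  intro k
  refine Measure.ae_smul_measure ?_ _
  exact ((H38.emb_mk k).ae_map_iff).2 (h k)

/-- a set is null if its sections in the direction of one coordinate are null -/
theorem null_coord [Nonempty E] (ρ : Measure E) [IsFiniteMeasure ρ] {k : ℕ} (t : Fin k)
    (S : Set (Fin k → E)) (hS : MeasurableSet S)
    (h : ∀ u : Fin k → E, ρ {v | Function.update u t v ∈ S} = 0) :
    (Measure.pi fun _ : Fin k => ρ) S = 0 := by
  obtain ⟨n, rfl⟩ : ∃ n, k = n + 1 := ⟨k - 1, by have := t.2; omega⟩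
  have hm : Measurable fun q : E × (Fin n → E) =>
      (t.insertNth q.1 q.2 : Fin (n + 1) → E) :=
    (MeasurableEquiv.piFinSuccAbove (fun _ : Fin (n + 1) => E) t).symm.measurable
  have hSm : MeasurableSet {q : E × (Fin n → E) | (t.insertNth q.1 q.2 : Fin (n + 1) → E) ∈ S} :=
    hm hS
  have h2 := H38.lintegral_split ρ t
    (fun q => ind ((t.insertNth q.1 q.2 : Fin (n + 1) → E) ∈ S)) (measurable_ind hSm)
  have h3 : (fun x : Fin (n + 1) → E =>
      ind ((t.insertNth (x t, t.removeNth x).1 (x t, t.removeNth x).2 : Fin (n + 1) → E) ∈ S)) =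
      fun x => ind (x ∈ S) := by
    funext x
    simp only
    rw [Fin.insertNth_self_removeNth]
  rw [h3, lintegral_ind (p := fun x => x ∈ S) hS] at h2
  have h4 : (Measure.pi fun _ : Fin (n + 1) => ρ) S = _ := h2
  rw [h4, lintegral_lintegral_swap (measurable_ind hSm).aemeasurable]
  have h5 : ∀ z : Fin n → E,
      ∫⁻ y, ind ((t.insertNth y z : Fin (n + 1) → E) ∈ S) ∂ρ = 0 := by
    intro z
    have h6 : MeasurableSet {y : E | (t.insertNth y z : Fin (n + 1) → E) ∈ S} :=
      (hm.comp (measurable_id.prodMk measurable_const)) hS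
    rw [lintegral_ind h6]
    obtain ⟨y0⟩ := (inferInstance : Nonempty E)
    have h7 := h (t.insertNth y0 z)
    simpa only [Fin.update_insertNth] using h7
  simp only [h5, lintegral_zero]

end

variable {d : ℕ}

theorem leb_null (lam : ℝ≥0) (V : Set (Eu d)) {N : Set (Eu d)} (h : volume N = 0) :
    leb lam V N = 0 := by
  unfold leb
  rw [Measure.smul_apply, smul_eq_mul]
  have : (volume : Measure (Eu d)).restrict V N = 0 :=
    le_antisymm ((Measure.restrict_apply_le _ _).trans h.le) zero_le
  rw [this, mul_zero]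

/-- fixed points and the entries of the tuple -/
noncomputable def qq {k : ℕ} (x y : Eu d) (u : Fin k → Eu d) : Option (Option (Fin k)) → Eu d
  | none => x
  | some none => y
  | some (some i) => u i

lemma measurable_qq {k : ℕ} (x y : Eu d) (j : Option (Option (Fin k))) :
    Measurable fun u : Fin k → Eu d => qq x y u j := by
  rcases j with _ | _ | i
  · exact measurable_const
  · exact measurable_const
  · exact measurable_pi_apply i

lemma qq_update {k : ℕ} (x y : Eu d) (u : Fin k → Eu d) (t : Fin k) (v : Eu d)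
    (j : Option (Option (Fin k))) (hj : j ≠ some (some t)) :
    qq x y (Function.update u t v) j = qq x y u j := by
  rcases j with _ | _ | i
  · rfl
  · rfl
  · have : i ≠ t := fun h => hj (by rw [h])
    simp [qq, Function.update_of_ne this]

lemma nontrivial_Eu (hd : 1 ≤ d) : Nontrivial (Eu d) := by
  have : Nonempty (Fin d) := ⟨⟨0, by omega⟩⟩
  infer_instance

/-- one entry on a sphere given by the others -/
lemma ae_sphere (hd : 1 ≤ d) (lam : ℝ≥0) {V : Set (Eu d)} (hV : Dom V) (x y : Eu d) {k : ℕ}
    (t : Fin k) (j l m : Option (Option (Fin k))) (hj : j ≠ some (some t))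
    (hl : l ≠ some (some t)) (hm : m ≠ some (some t)) :
    ∀ᵐ u ∂(Measure.pi fun _ : Fin k => leb lam V),
      dist (u t) (qq x y u j) ≠ dist (qq x y u l) (qq x y u m) := by
  have := finite_leb lam hV.2
  have := nontrivial_Eu hd
  rw [ae_iff]
  simp only [ne_eq, not_not]
  refine null_coord (leb lam V) t _ ?_ fun u => ?_
  · exact measurableSet_eq_fun ((measurable_pi_apply t).dist (measurable_qq x y j))
      ((measurable_qq x y l).dist (measurable_qq x y m))
  · refine leb_null lam V ?_
    have h1 : {v : Eu d | Function.update u t v ∈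
        {u : Fin k → Eu d | dist (u t) (qq x y u j) = dist (qq x y u l) (qq x y u m)}} =
        Metric.sphere (qq x y u j) (dist (qq x y u l) (qq x y u m)) := by
      ext v
      show dist (Function.update u t v t) (qq x y (Function.update u t v) j) =
        dist (qq x y (Function.update u t v) l) (qq x y (Function.update u t v) m) ↔ _
      rw [qq_update _ _ _ _ _ _ hj, qq_update _ _ _ _ _ _ hl, qq_update _ _ _ _ _ _ hm,
        Function.update_self, Metric.mem_sphere]
    rw [h1]
    exact Measure.addHaar_sphere _ _ _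

/-- one entry different from a fixed point -/
lemma ae_ne (hd : 1 ≤ d) (lam : ℝ≥0) {V : Set (Eu d)} (hV : Dom V) (x : Eu d) {k : ℕ}
    (t : Fin k) : ∀ᵐ u ∂(Measure.pi fun _ : Fin k => leb lam V), u t ≠ x := by
  have := finite_leb lam hV.2
  have := nontrivial_Eu hd
  rw [ae_iff]
  simp only [ne_eq, not_not]
  refine null_coord (leb lam V) t _ ?_ fun u => ?_
  · exact measurableSet_eq_fun (measurable_pi_apply t) measurable_const
  · refine leb_null lam V ?_
    have h1 : {v : Eu d | Function.update u t v ∈ {u : Fin k → Eu d | u t = x}} = {x} := by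
      ext v
      show Function.update u t v t = x ↔ _
      rw [Function.update_self, mem_singleton_iff]
    rw [h1]
    exact measure_singleton x

/-- one entry not on the bisector -/
lemma ae_bisector (hd : 1 ≤ d) (lam : ℝ≥0) {V : Set (Eu d)} (hV : Dom V) (x y : Eu d)
    (hxy : x ≠ y) {k : ℕ} (t : Fin k) :
    ∀ᵐ u ∂(Measure.pi fun _ : Fin k => leb lam V), dist (u t) x ≠ dist (u t) y := by
  have := finite_leb lam hV.2
  have := nontrivial_Eu hd
  rw [ae_iff]
  simp only [ne_eq, not_not]
  refine null_coord (leb lam V) t _ ?_ fun u => ?_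
  · exact measurableSet_eq_fun ((measurable_pi_apply t).dist measurable_const)
      ((measurable_pi_apply t).dist measurable_const)
  · refine leb_null lam V ?_
    have h1 : {v : Eu d | Function.update u t v ∈
        {u : Fin k → Eu d | dist (u t) x = dist (u t) y}} =
        (AffineSubspace.perpBisector x y : Set (Eu d)) := by
      ext v
      show dist (Function.update u t v t) x = dist (Function.update u t v t) y ↔ _
      rw [Function.update_self]
      exact AffineSubspace.mem_perpBisector_iff_dist_eq.symm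
    rw [h1]
    refine Measure.addHaar_affineSubspace _ _ ?_
    intro htop
    have h2 : x ∈ AffineSubspace.perpBisector x y := by
      rw [htop]
      exact AffineSubspace.mem_top _ _ _
    exact hxy (AffineSubspace.left_mem_perpBisector.1 h2)

/-- the deterministic part -/
lemma gen_of (x y : Eu d) (hxy : x ≠ y) (P : Set (Eu d)) (hx : x ∉ P) (hy : y ∉ P)
    (h2 : ∀ p ∈ P, ∀ b ∈ insert x (insert y P), ∀ c ∈ insert x (insert y P),
      ∀ e ∈ insert x (insert y P), b ≠ p → c ≠ p → e ≠ p → dist p b ≠ dist c e)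
    (h3 : ∀ p ∈ P, dist p x ≠ dist p y) : Gen (insert x (insert y P)) := by
  -- the first point of the first pair is in `P`
  have key : ∀ a ∈ P, ∀ b ∈ insert x (insert y P), ∀ c ∈ insert x (insert y P),
      ∀ e ∈ insert x (insert y P), a ≠ b → c ≠ e → dist a b = dist c e →
      (a = c ∧ b = e) ∨ (a = e ∧ b = c) := by
    -- first the case `a = c`
    have key1 : ∀ a ∈ P, ∀ b ∈ insert x (insert y P), ∀ e ∈ insert x (insert y P),
        a ≠ b → a ≠ e → dist a b = dist a e → b = e := by
      intro a ha b hb e he hab hae h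
      by_contra hbe
      have haQ : a ∈ insert x (insert y P) := Or.inr (Or.inr ha)
      rcases hb with rfl | rfl | hb
      · rcases he with rfl | rfl | he
        · exact hbe rfl
        · exact h3 a ha h
        · exact h2 e he a haQ a haQ b (Or.inl rfl) hae hae hbe
            (by rw [dist_comm e a]; exact h.symm)
      · rcases he with rfl | rfl | he
        · exact h3 a ha h.symm
        · exact hbe rfl
        · exact h2 e he a haQ a haQ b (Or.inr (Or.inl rfl)) hae hae hbe
            (by rw [dist_comm e a]; exact h.symm)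
      · exact h2 b hb a haQ a haQ e he hab hab (Ne.symm hbe)
            (by rw [dist_comm b a]; exact h)
    intro a ha b hb c hc e he hab hce h
    by_cases hac : a = c
    · subst hac
      exact Or.inl ⟨rfl, key1 a ha b hb e he hab hce h⟩
    · by_cases hae : a = e
      · subst hae
        exact Or.inr ⟨rfl, key1 a ha b hb c hc hab (Ne.symm hce) (by rw [h, dist_comm])⟩
      · exact absurd h (h2 a ha b hb c hc e he (Ne.symm hab) (Ne.symm hac) (Ne.symm hae))
  intro a ha b hb c hc e he hab hce h
  by_cases haP : a ∈ P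
  · exact key a haP b hb c hc e he hab hce h
  by_cases hbP : b ∈ P
  · rcases key b hbP a ha c hc e he (Ne.symm hab) hce (by rw [dist_comm b a]; exact h) with
      ⟨h4, h5⟩ | ⟨h4, h5⟩
    · exact Or.inr ⟨h5, h4⟩
    · exact Or.inl ⟨h5, h4⟩
  by_cases hcP : c ∈ P
  · rcases key c hcP e he a ha b hb hce hab h.symm with ⟨h4, h5⟩ | ⟨h4, h5⟩
    · exact Or.inl ⟨h4.symm, h5.symm⟩
    · exact Or.inr ⟨h5.symm, h4.symm⟩
  by_cases heP : e ∈ P
  · rcases key e heP c hc a ha b hb (Ne.symm hce) hab (by rw [dist_comm e c]; exact h.symm) with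
      ⟨h4, h5⟩ | ⟨h4, h5⟩
    · exact Or.inr ⟨h4.symm, h5.symm⟩
    · exact Or.inl ⟨h5.symm, h4.symm⟩
  have hcase : ∀ z : Eu d, z ∈ insert x (insert y P) → z ∉ P → z = x ∨ z = y := by
    intro z hz hzP
    rcases hz with rfl | rfl | hz
    · exact Or.inl rfl
    · exact Or.inr rfl
    · exact absurd hz hzP
  have hpair : ∀ z z' : Eu d, z = x ∨ z = y → z' = x ∨ z' = y → z ≠ z' →
      (z = x ∧ z' = y) ∨ (z = y ∧ z' = x) := by
    intro z z' hz hz' hne
    rcases hz with h1 | h1
    · rcases hz' with h2 | h2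
      · exact absurd (h1.trans h2.symm) hne
      · exact Or.inl ⟨h1, h2⟩
    · rcases hz' with h2 | h2
      · exact Or.inr ⟨h1, h2⟩
      · exact absurd (h1.trans h2.symm) hne
  rcases hpair a b (hcase a ha haP) (hcase b hb hbP) hab with ⟨h4, h5⟩ | ⟨h4, h5⟩ <;>
    rcases hpair c e (hcase c hc hcP) (hcase e he heP) hce with ⟨h6, h7⟩ | ⟨h6, h7⟩
  · exact Or.inl ⟨h4.trans h6.symm, h5.trans h7.symm⟩
  · exact Or.inr ⟨h4.trans h7.symm, h5.trans h6.symm⟩
  · exact Or.inr ⟨h4.trans h7.symm, h5.trans h6.symm⟩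
  · exact Or.inl ⟨h4.trans h6.symm, h5.trans h7.symm⟩

/-- GENF -/
theorem genf : GenFStatement := by
  intro d lam V x y hd hV hxy
  have := finite_leb lam hV.2
  have := noAtoms_leb hd lam V
  refine ae_PL fun k => ?_
  have h1 : ∀ᵐ u ∂(Measure.pi fun _ : Fin k => leb lam V), ∀ t, u t ≠ x :=
    ae_all_iff.2 fun t => ae_ne hd lam hV x t
  have h2 : ∀ᵐ u ∂(Measure.pi fun _ : Fin k => leb lam V), ∀ t, u t ≠ y :=
    ae_all_iff.2 fun t => ae_ne hd lam hV y t
  have h3 : ∀ᵐ u ∂(Measure.pi fun _ : Fin k => leb lam V), ∀ t, dist (u t) x ≠ dist (u t) y :=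
    ae_all_iff.2 fun t => ae_bisector hd lam hV x y hxy t
  have h4 : ∀ᵐ u ∂(Measure.pi fun _ : Fin k => leb lam V), ∀ (t : Fin k)
      (j l m : Option (Option (Fin k))), j ≠ some (some t) → l ≠ some (some t) →
      m ≠ some (some t) → dist (u t) (qq x y u j) ≠ dist (qq x y u l) (qq x y u m) := by
    rw [ae_all_iff]; intro t
    rw [ae_all_iff]; intro j
    rw [ae_all_iff]; intro l
    rw [ae_all_iff]; intro m
    by_cases hj : j = some (some t)
    · exact Filter.Eventually.of_forall fun u h => absurd hj h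
    by_cases hl : l = some (some t)
    · exact Filter.Eventually.of_forall fun u _ h => absurd hl h
    by_cases hm : m = some (some t)
    · exact Filter.Eventually.of_forall fun u _ _ h => absurd hm h
    filter_upwards [ae_sphere hd lam hV x y t j l m hj hl hm] with u hu _ _ _
    exact hu
  filter_upwards [h1, h2, h3, h4] with u hu1 hu2 hu3 hu4
  have hx : x ∉ pt (⟨k, u⟩ : Cfg (Eu d)) := by
    rintro ⟨t, ht⟩
    exact hu1 t ht
  have hy : y ∉ pt (⟨k, u⟩ : Cfg (Eu d)) := by
    rintro ⟨t, ht⟩
    exact hu2 t ht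
  refine ⟨hx, hy, gen_of x y hxy _ hx hy ?_ ?_⟩
  · have hidx : ∀ b ∈ insert x (insert y (pt (⟨k, u⟩ : Cfg (Eu d)))),
        ∃ j, qq x y u j = b := by
      rintro b (rfl | rfl | ⟨t, ht⟩)
      · exact ⟨none, rfl⟩
      · exact ⟨some none, rfl⟩
      · exact ⟨some (some t), ht⟩
    rintro p ⟨t, rfl⟩ b hb c hc e he hbp hcp hep
    obtain ⟨j, rfl⟩ := hidx b hb
    obtain ⟨l, rfl⟩ := hidx c hc
    obtain ⟨m, rfl⟩ := hidx e he
    refine hu4 t j l m ?_ ?_ ?_
    · rintro rfl; exact hbp rfl
    · rintro rfl; exact hcp rfl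
    · rintro rfl; exact hep rfl
  · rintro p ⟨t, rfl⟩
    exact hu3 t

end Pool.Agent.Lib.MP_5349a4_pr.H59
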