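import Pool.Agent.Lib.MP_5349a4_pr.M.Base
import Pool.Agent.Lib.MP_5349a4_pr.M.Iface4

/-!
# Module PGEN (helper59): the process is infinite and in general position
-/

set_option autoImplicit false
open MeasureTheory Set ProbabilityTheory Filter
open scoped ENNReal NNReal Topology

namespace Pool.Agent.Lib.MP_5349a4_pr.H59

variable {d : ℕ}

lemma measurableSet_gen : ME fun P : Set (Eu d) => Gen P := by
  unfold ME
  rw [measurableSet_cfg]
  intro k
  have h : {x : Fin k → Eu d | (⟨k, x⟩ : Cfg (Eu d)) ∈ {ω : Cfg (Eu d) | Gen (pt ω)}} =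
      ⋂ i : Fin k, ⋂ j : Fin k, ⋂ l : Fin k, ⋂ m : Fin k,
        ({x | x i = x j} ∪ {x | x l = x m} ∪ {x | dist (x i) (x j) = dist (x l) (x m)}ᶜ ∪
          (({x | x i = x l} ∩ {x | x j = x m}) ∪ ({x | x i = x m} ∩ {x | x j = x l}))) := by
    ext x
    simp only [mem_iInter]
    constructor
    · intro h i j l m
      have h1 : Gen (pt (⟨k, x⟩ : Cfg (Eu d))) := h
      by_cases h2 : x i = x j
      · exact Or.inl (Or.inl (Or.inl h2))
      by_cases h3 : x l = x m
      · exact Or.inl (Or.inl (Or.inr h3))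
      by_cases h4 : dist (x i) (x j) = dist (x l) (x m)
      · right
        exact h1 (x i) ⟨i, rfl⟩ (x j) ⟨j, rfl⟩ (x l) ⟨l, rfl⟩ (x m) ⟨m, rfl⟩ h2 h3 h4
      · exact Or.inl (Or.inr h4)
    · intro h
      show Gen (pt (⟨k, x⟩ : Cfg (Eu d)))
      rintro a ⟨i, rfl⟩ b ⟨j, rfl⟩ c ⟨l, rfl⟩ e ⟨m, rfl⟩ hab hce h1
      rcases h i j l m with ((h2 | h2) | h2) | h2
      · exact absurd h2 hab
      · exact absurd h2 hce
      · exact absurd h1 h2
      · exact h2
  rw [h]
  have hm : ∀ i : Fin k, Measurable fun x : Fin k → Eu d => x i := fun i => measurable_pi_apply i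
  have he : ∀ i j : Fin k, MeasurableSet {x : Fin k → Eu d | x i = x j} :=
    fun i j => measurableSet_eq_fun (hm i) (hm j)
  refine MeasurableSet.iInter fun i => MeasurableSet.iInter fun j => MeasurableSet.iInter fun l =>
    MeasurableSet.iInter fun m => ?_
  refine (((he i j).union (he l m)).union ?_).union (((he i l).inter (he j m)).union
    ((he i m).inter (he j l)))
  exact (measurableSet_eq_fun ((hm i).dist (hm j)) ((hm l).dist (hm m))).compl

lemma Gen.mono {P Q : Set (Eu d)} (h : Gen Q) (hPQ : P ⊆ Q) : Gen P :=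
  fun a ha b hb c hc e he => h a (hPQ ha) b (hPQ hb) c (hPQ hc) e (hPQ he)

lemma measurableSet_empty_pt : ME fun P : Set (Eu d) => P = ∅ := by
  unfold ME
  rw [measurableSet_cfg]
  intro k
  rcases Nat.eq_zero_or_pos k with rfl | hk
  · convert MeasurableSet.univ
    ext x
    simp only [mem_univ, iff_true]
    show pt (⟨0, x⟩ : Cfg (Eu d)) = ∅
    exact Set.range_eq_empty _
  · convert MeasurableSet.empty
    ext x
    simp only [mem_empty_iff_false, iff_false]
    intro h
    have h1 : pt (⟨k, x⟩ : Cfg (Eu d)) = ∅ := h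
    have h2 : x ⟨0, hk⟩ ∈ pt (⟨k, x⟩ : Cfg (Eu d)) := ⟨_, rfl⟩
    rw [h1] at h2
    exact h2

/-- transfer of events -/
lemma law_event {Ω : Type} [MeasurableSpace Ω] {Pr : Measure Ω} {S : Ω → Set (Eu d)}
    (hP : IsProc d Pr S) {V : Set (Eu d)} (hV : Dom V) {A : Set (Eu d) → Prop} (hA : ME A) :
    MeasurableSet {ω | A (S ω ∩ V)} ∧ Pr {ω | A (S ω ∩ V)} = PL (leb 1 V) {ω | A (pt ω)} := by
  have hCM : CM fun P => ind (A P) := measurable_ind hA
  obtain ⟨h1, h2⟩ := hP.law V hV (fun P => ind (A P)) hCM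
  have h3 : MeasurableSet {ω | A (S ω ∩ V)} := by
    have h4 : {ω | A (S ω ∩ V)} = (fun ω => ind (A (S ω ∩ V))) ⁻¹' {1} := by
      ext ω
      show A (S ω ∩ V) ↔ ind (A (S ω ∩ V)) = 1
      by_cases h : A (S ω ∩ V)
      · simp [ind_of h, h]
      · simp [ind_not h, h]
    rw [h4]
    exact h1 (measurableSet_singleton 1)
  refine ⟨h3, ?_⟩
  rw [lintegral_ind h3, lintegral_ind hA] at h2
  exact h2

/-- PGEN -/
theorem pgen (hG : GenFStatement) (hC : CountStatement) : PGenStatement := by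
  intro d Ω _ Pr S hd hP
  have hprob := hP.prob
  have hntr : Nontrivial (Eu d) := by
    have : Nonempty (Fin d) := ⟨⟨0, by omega⟩⟩
    infer_instance
  -- general position
  have hgen : ∀ᵐ ω ∂Pr, ∀ N : ℕ, Gen (S ω ∩ bal 0 N) := by
    rw [ae_all_iff]
    intro N
    obtain ⟨x, y, hxy⟩ := exists_pair_ne (Eu d)
    have h1 := hG d 1 (bal 0 N) x y hd (dom_bal 0 N) hxy
    have h2 : ∀ᵐ ω ∂PL (leb 1 (bal (0 : Eu d) N)), Gen (pt ω) := by
      filter_upwards [h1] with ω hω
      exact Gen.mono hω.2.2 (fun p hp => Or.inr (Or.inr hp))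
    have hA : ME fun P : Set (Eu d) => ¬ Gen P := measurableSet_gen.compl
    have h3 := (law_event hP (dom_bal 0 N) hA).2
    rw [ae_iff] at h2 ⊢
    rw [h3]
    exact h2
  -- infinite
  have hinf : ∀ᵐ ω ∂Pr, ∀ N : ℕ, ¬ (S ω ⊆ bal 0 N) := by
    rw [ae_all_iff]
    intro N
    rw [ae_iff]
    simp only [not_not]
    have hc : 0 < (volume (Metric.ball (0 : Eu d) 1)).toReal := by
      refine ENNReal.toReal_pos ?_ measure_ball_lt_top.ne
      exact (Metric.measure_ball_pos volume (0 : Eu d) one_pos).ne'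
    set c := (volume (Metric.ball (0 : Eu d) 1)).toReal with hcdef
    have hbound : ∀ R : ℕ, 1 ≤ R → Pr {ω | S ω ⊆ bal 0 N} ≤
        ENNReal.ofReal (Real.exp (-(R * c))) := by
      intro R hR
      obtain ⟨p, hp⟩ := exists_norm_eq (Eu d) (c := (N : ℝ) + R + 1) (by positivity)
      have h1 : {ω | S ω ⊆ bal 0 N} ⊆ {ω | S ω ∩ bal p R = ∅} := by
        intro ω hω
        show S ω ∩ bal p R = ∅
        rw [Set.eq_empty_iff_forall_notMem]
        rintro z ⟨hz1, hz2⟩
        have h3 : dist z 0 ≤ N := hω hz1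
        have h4 : dist z p ≤ R := hz2
        rw [dist_zero_right] at h3
        have h5 : ‖p‖ ≤ ‖z‖ + dist z p := by
          rw [dist_eq_norm]
          calc ‖p‖ = ‖z - (z - p)‖ := by congr 1; abel
            _ ≤ ‖z‖ + ‖z - p‖ := norm_sub_le _ _
        rw [hp] at h5
        linarith
      refine (measure_mono h1).trans ?_
      rw [(law_event hP (dom_bal p R) (measurableSet_empty_pt)).2]
      have := finite_leb 1 (dom_bal p (R : ℝ)).2
      have h6 := (hC (Eu d) (leb 1 (bal p R)) univ MeasurableSet.univ).1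
      simp only [inter_univ] at h6
      rw [h6]
      refine ENNReal.ofReal_le_ofReal (Real.exp_le_exp.2 (neg_le_neg ?_))
      rw [leb_univ]
      have h7 : volume (bal p (R : ℝ)) = ENNReal.ofReal ((R : ℝ) ^ d) *
          volume (Metric.ball (0 : Eu d) 1) := by
        have h8 := Measure.addHaar_closedBall (volume : Measure (Eu d)) p
          (r := (R : ℝ)) (by positivity)
        rw [finrank_euclideanSpace, Fintype.card_fin] at h8
        exact h8
      rw [h7]
      simp only [ENNReal.coe_one, one_mul]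
      rw [ENNReal.toReal_mul, ENNReal.toReal_ofReal (by positivity)]
      refine mul_le_mul_of_nonneg_right ?_ hc.le
      have hR1 : (1 : ℝ) ≤ R := by exact_mod_cast hR
      calc (R : ℝ) = (R : ℝ) ^ 1 := (pow_one _).symm
        _ ≤ (R : ℝ) ^ d := pow_le_pow_right₀ hR1 hd
    have hlim : Tendsto (fun R : ℕ => ENNReal.ofReal (Real.exp (-(R * c)))) atTop (𝓝 0) := by
      rw [← ENNReal.ofReal_zero]
      refine ENNReal.tendsto_ofReal ?_
      refine Real.tendsto_exp_neg_atTop_nhds_zero.comp ?_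
      exact tendsto_natCast_atTop_atTop.atTop_mul_const hc
    refine le_antisymm ?_ zero_le
    refine ge_of_tendsto hlim ?_
    filter_upwards [eventually_ge_atTop 1] with R hR
    exact hbound R hR
  filter_upwards [hgen, hinf] with ω h1 h2
  constructor
  · intro hfin
    obtain ⟨C, hC'⟩ := (hfin.isBounded).exists_norm_le
    obtain ⟨N, hN⟩ := exists_nat_ge C
    refine h2 N fun z hz => ?_
    show dist z 0 ≤ N
    rw [dist_zero_right]
    exact (hC' z hz).trans hN
  · intro a ha b hb c hc e he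
    obtain ⟨N, hN⟩ := exists_nat_ge (max (max ‖a‖ ‖b‖) (max ‖c‖ ‖e‖))
    have hin : ∀ z : Eu d, ‖z‖ ≤ N → z ∈ bal (0 : Eu d) N := by
      intro z hz
      show dist z 0 ≤ N
      rwa [dist_zero_right]
    refine h1 N a ⟨ha, hin a ?_⟩ b ⟨hb, hin b ?_⟩ c ⟨hc, hin c ?_⟩ e ⟨he, hin e ?_⟩
    · exact ((le_max_left _ _).trans (le_max_left _ _)).trans hN
    · exact ((le_max_right _ _).trans (le_max_left _ _)).trans hN
    · exact ((le_max_left _ _).trans (le_max_right _ _)).trans hN
    · exact ((le_max_right _ _).trans (le_max_right _ _)).trans hN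

end Pool.Agent.Lib.MP_5349a4_pr.H59
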